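import Pool.Agent.RMB.Z5

/-!
# Fixed points of the radial mean body operator, `p = n + 2`

If `K ⊆ ℝⁿ` (`n ≥ 1`) is a convex body, `c > 0` and `R_{n+2} K = c K`, then `K` is a centered
ellipsoid.
-/

set_option autoImplicit false

theorem Pool.Agent.Results.MP_8abeec_gt.FixedPointsDimPlusTwo.result
    {n : ℕ} (hn : 1 ≤ n) {K : Set (RMB.E n)} (hK : RMB.IsBody K) {c : ℝ} (hc : 0 < c)
    (h : RMB.RadialMeanBody ((n : ℝ) + 2) K = (fun x => c • x) '' K) :
    RMB.IsEllipsoid K :=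
  RMB.main hn (Or.inr (Or.inl rfl)) hK hc h
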