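import Pool.Agent.RMB.Z5

/-!
# Fixed points of the radial mean body operator, `n + 4 ≤ p ≤ n + 6`

If `K ⊆ ℝⁿ` (`n ≥ 1`) is a convex body, `n + 4 ≤ p ≤ n + 6`, `c > 0` and `R_p K = c K`, then `K` is a
centered ellipsoid.
-/

set_option autoImplicit false

theorem Pool.Agent.Results.MP_8abeec_gt.FixedPointsFourToSix.result
    {n : ℕ} (hn : 1 ≤ n) {p : ℝ} (h4 : (n : ℝ) + 4 ≤ p) (h6 : p ≤ (n : ℝ) + 6)
    {K : Set (RMB.E n)} (hK : RMB.IsBody K) {c : ℝ} (hc : 0 < c)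
    (h : RMB.RadialMeanBody p K = (fun x => c • x) '' K) :
    RMB.IsEllipsoid K :=
  RMB.main hn (Or.inr (Or.inr ⟨h4, h6⟩)) hK hc h
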