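import Pool.Agent.RMB.Z5

/-!
# Fixed points of the radial mean body operator in the plane, `p ≥ 2`

If `K ⊆ ℝ²` is a convex body, `p ≥ 2`, `c > 0` and `R_p K = c K`, then `K` is a centered ellipse.
-/

set_option autoImplicit false

theorem Pool.Agent.Results.MP_8abeec_gt.PlanarFixedPoints.result
    {p : ℝ} (hp : 2 ≤ p) {K : Set (RMB.E 2)} (hK : RMB.IsBody K) {c : ℝ} (hc : 0 < c)
    (h : RMB.RadialMeanBody p K = (fun x => c • x) '' K) :
    RMB.IsEllipsoid K :=
  RMB.main (n := 2) (by norm_num) (Or.inl ⟨rfl, hp⟩) hK hc h
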